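import Pool.Agent.Helper45.CF.GoalsC

/-!
# Project CF (MP_d97caa_an), second stage: ZX

Theories vanish on the functions on the infinite product of spheres.
-/

open scoped ComplexOrder ZeroAtInfty Topology ComplexConjugate
open TopologicalSpace Filter

namespace Pool.Agent.Helper49.CF2.ZX

open Pool.Agent.Helper34.CAR Pool.Agent.Helper39.CR Pool.Agent.Helper45.CF

noncomputable section

/-- Transport of vanishing along isomorphisms. -/
theorem zero_iso (T : Theory) {A B : Type} [NonUnitalCStarAlgebra A] [NonUnitalCStarAlgebra B]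
    [SeparableSpace A] [SeparableSpace B] (f : A →⋆ₙₐ[ℂ] B) (g : B →⋆ₙₐ[ℂ] A)
    (h : ∀ b, f (g b) = b) (hA : T.Zero A) : T.Zero B := by
  intro i x
  have h1 : f.comp g = NonUnitalStarAlgHom.id ℂ B := by
    ext b
    exact h b
  have h2 : T.map i g (T.map i f x) = x := by
    rw [← T.map_comp i B A B g f x, h1, T.map_id]
  rw [← h2, hA i (T.map i f x), map_zero]

/-- Evaluation at a point. -/
def evC {Z : Type} [TopologicalSpace Z] [CompactSpace Z] (A : Type) [NonUnitalCStarAlgebra A]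
    (z : Z) : C(Z, A) →⋆ₙₐ[ℂ] A where
  toFun f := f z
  map_smul' _ _ := rfl
  map_zero' := rfl
  map_add' _ _ := rfl
  map_mul' _ _ := rfl
  map_star' _ := rfl

/-- Constant functions. -/
def cstC (Z : Type) [TopologicalSpace Z] [CompactSpace Z] (A : Type) [NonUnitalCStarAlgebra A] :
    A →⋆ₙₐ[ℂ] C(Z, A) where
  toFun a := ContinuousMap.const Z a
  map_smul' _ _ := rfl
  map_zero' := rfl
  map_add' _ _ := rfl
  map_mul' _ _ := rfl
  map_star' _ := rfl

theorem cstC_evC {A : Type} [NonUnitalCStarAlgebra A] {Y : Type} [TopologicalSpace Y]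
    [CompactSpace Y] (z : Fin 0 → Y) (f : C(Fin 0 → Y, A)) :
    cstC (Fin 0 → Y) A (evC A z f) = f := by
  ext z'
  rw [Subsingleton.elim z' z]
  rfl

/-- Products of spheres. -/
theorem zfin (hSPH : S_SPH) (hCUR : S_CUR) (T : Theory) (k : ℕ) :
    ∀ (A : Type) [NonUnitalCStarAlgebra A] [SeparableSpace A], T.Zero A →
      T.Zero C(Fin k → Sphere2, A) := by
  induction k with
  | zero =>
    intro A _ _ hA
    have z : Fin 0 → Sphere2 := fun i => i.elim0
    exact zero_iso T (cstC (Fin 0 → Sphere2) A) (evC A z) (cstC_evC z) hA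
  | succ k ih =>
    intro A _ _ hA
    obtain ⟨φ, ψ, -, h1, h2⟩ := hCUR Sphere2 A k
    exact zero_iso T ψ φ h1 (ih _ (hSPH T A hA))

/-- Increasing unions. -/
theorem zero_union (T : Theory) (A : Type) [NonUnitalCStarAlgebra A] [SeparableSpace A]
    (B : ℕ → Type) [∀ k, NonUnitalCStarAlgebra (B k)] [∀ k, SeparableSpace (B k)]
    (j : ∀ k, B k →⋆ₙₐ[ℂ] B (k + 1)) (u : ∀ k, B k →⋆ₙₐ[ℂ] A)
    (hu : ∀ k, Function.Injective (u k)) (hj : ∀ k b, u (k + 1) (j k b) = u k b)
    (hd : Dense (⋃ k, Set.range (u k))) (hB : ∀ k, T.Zero (B k)) : T.Zero A := by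
  intro i x
  obtain ⟨-, d, -, h2⟩ := T.milnor i A B j u hu hj hd
  obtain ⟨z, hz⟩ := (h2 x).1 fun k => hB k i _
  have h0 : z = 0 := funext fun k => hB k (i + 1) (z k)
  rw [← hz, h0, map_zero]

/-- The restriction to the first coordinates. -/
def res (Y : Type) [TopologicalSpace Y] (k : ℕ) : C(ℕ → Y, Fin k → Y) where
  toFun x i := x i
  continuous_toFun := by fun_prop

/-- Forgetting the last coordinate. -/
def shr (Y : Type) [TopologicalSpace Y] (k : ℕ) : C(Fin (k + 1) → Y, Fin k → Y) where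
  toFun z l := z l.castSucc
  continuous_toFun := by fun_prop

theorem res_surj (Y : Type) [TopologicalSpace Y] [Nonempty Y] (k : ℕ) :
    Function.Surjective (res Y k) := by
  intro z
  obtain ⟨y0⟩ := (inferInstance : Nonempty Y)
  refine ⟨fun i => if h : i < k then z ⟨i, h⟩ else y0, ?_⟩
  funext i
  show (if h : (i : ℕ) < k then z ⟨i, h⟩ else y0) = z i
  rw [dif_pos i.2]

theorem t (hFIN : S_FIN) (hSPH : S_SPH) (hCUR : S_CUR) : S_ZX := by
  intro T
  have hne : Nonempty Sphere2 := ⟨pol (0, 1)⟩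
  have hC : T.Zero ℂ := fun i x => T.point i x
  refine zero_union T C(ℕ → Sphere2, ℂ) (fun k => C(Fin k → Sphere2, ℂ))
    (fun k => pull ℂ (shr Sphere2 k)) (fun k => pull ℂ (res Sphere2 k)) ?_ ?_ ?_ ?_
  · intro k f g hfg
    ext z
    obtain ⟨x, rfl⟩ := res_surj Sphere2 k z
    exact DFunLike.congr_fun hfg x
  · intro k b
    rfl
  · rw [Metric.dense_iff]
    intro g r hr
    obtain ⟨n, f, hf⟩ := hFIN Sphere2 ℂ g (r / 2) (half_pos hr)
    refine ⟨pull ℂ (res Sphere2 n) f, ?_, Set.mem_iUnion.2 ⟨n, f, rfl⟩⟩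
    rw [Metric.mem_ball, dist_comm, dist_eq_norm]
    refine lt_of_le_of_lt ?_ (half_lt_self hr)
    rw [ContinuousMap.norm_le _ (half_pos hr).le]
    intro x
    exact (hf x).le
  · intro k
    exact zfin hSPH hCUR T k ℂ hC

end

end Pool.Agent.Helper49.CF2.ZX

namespace Pool.Agent.Helper49.CF2

open Pool.Agent.Helper45.CF

theorem t_ZX (hFIN : S_FIN) (hSPH : S_SPH) (hCUR : S_CUR) : S_ZX := ZX.t hFIN hSPH hCUR

end Pool.Agent.Helper49.CF2
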